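import Pool.Agent.Q189.Spencer2
import Pool.Agent.Q98.SPN.Lind
import Pool.Agent.W831.ECC.Rnd

/-!
Rounding of a nonnegative combination of at most `N` subsets of an `N`-element set, with error
`2 sqrt (N log (2N))` (random rounding) or `1950 sqrt N` (six standard deviations).
-/

set_option autoImplicit false

namespace Pool.Agent.Helper93.WF

open Finset

/-- the rounding property with error `D` -/
def Rd (E : Type) [Fintype E] [DecidableEq E] (D : ℝ) : Prop :=
  ∀ (s : Finset (Finset E)), s.card ≤ Fintype.card E → ∀ θ : Finset E → ℝ, (∀ C, 0 ≤ θ C) →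
    (∀ C, θ C ≤ 1) → ∃ ε : Finset E → ℕ, (∀ C, ε C ≤ 1) ∧
      ∀ e, |∑ C ∈ s, if e ∈ C then ((ε C : ℝ) - θ C) else 0| ≤ D

lemma log_le_self' (n : ℕ) (hn : 1 ≤ n) : Real.log (2 * n) ≤ n := by
  have h1 : (1 : ℝ) ≤ n := by exact_mod_cast hn
  have h2 : Real.log (2 * n) = Real.log 2 + Real.log n := by
    rw [Real.log_mul (by norm_num) (by positivity)]
  have h3 : Real.log n ≤ n - 1 := Real.log_le_sub_one_of_pos (by positivity)
  have h4 := Real.log_two_lt_d9
  rw [h2]
  linarith

theorem rd_log (E : Type) [Fintype E] [DecidableEq E] (hE : 1 ≤ Fintype.card E) (Q : ℝ)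
    (hQ : Real.log (2 * Fintype.card E) ≤ Q)
    (s : Finset (Finset E)) (θ : Finset E → ℝ) (h0 : ∀ C, 0 ≤ θ C)
    (h1 : ∀ C, θ C ≤ 1) (h2 : ∀ e, ∑ C ∈ s, (if e ∈ C then θ C else 0) ≤ Q) :
    ∃ ε : Finset E → ℕ, (∀ C, ε C ≤ 1) ∧
      ∀ e, |∑ C ∈ s, if e ∈ C then ((ε C : ℝ) - θ C) else 0| ≤
        2 * Real.sqrt (Q * Real.log (2 * Fintype.card E)) := by
  obtain ⟨ε, he1, he2⟩ := Pool.Agent.W831.ECC.exists_rounding (κ := E) (fun e C => e ∈ C) θ h0 h1
    s Q h2 hE hQ
  exact ⟨ε, he1, fun e => he2 e⟩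

/-- signs -/
lemma signs (m : ℕ) (hm : 1 ≤ m) : ∀ (M : ℕ), M ≤ m → ∀ (a : Fin M → Fin m → ℝ),
    (∀ i k, |a i k| ≤ 1) → ∃ δ : Fin M → ℝ, (∀ i, δ i = 1 ∨ δ i = -1) ∧
      ∀ k, |∑ i, δ i * a i k| ≤ 1950 * √(√((m : ℝ) * M)) := by
  intro M
  induction M using Nat.strong_induction_on with
  | _ M ih =>
    intro hMm a ha
    classical
    rcases lt_or_ge M 4 with hM | hM
    · refine ⟨fun _ => 1, fun _ => Or.inl rfl, fun k => ?_⟩
      rcases Nat.eq_zero_or_pos M with h0 | h0
      · subst h0
        simp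
      · have h1 : (1 : ℝ) ≤ √(√((m : ℝ) * M)) := by
          rw [Real.one_le_sqrt, Real.one_le_sqrt]
          have e1 : (1 : ℝ) ≤ m := by exact_mod_cast hm
          have e2 : (1 : ℝ) ≤ M := by exact_mod_cast h0
          nlinarith
        calc |∑ i, 1 * a i k| ≤ ∑ i : Fin M, |1 * a i k| := Finset.abs_sum_le_sum_abs _ _
          _ ≤ ∑ _i : Fin M, (1 : ℝ) := Finset.sum_le_sum fun i _ => by rw [one_mul]; exact ha i k
          _ = M := by simp
          _ ≤ 4 := by exact_mod_cast hM.le
          _ ≤ _ := by linarith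
    · obtain ⟨δ, hδ, hcard, hsum⟩ := Q189.Spencer.partial_fin M m hM hMm a ha
      set Z : Finset (Fin M) := univ.filter fun i => δ i = 0 with hZ
      set M' := Z.card with hM'
      have hnz : (univ.filter fun i => δ i ≠ 0).card + M' = M := by
        have h1 := Finset.card_filter_add_card_filter_not (s := (univ : Finset (Fin M)))
          (fun i => δ i ≠ 0)
        simp only [not_not, Finset.card_univ, Fintype.card_fin] at h1
        exact h1
      have hM'lt : (M' : ℝ) ≤ 0.9 * M := by
        have h1 : (((univ.filter fun i => δ i ≠ 0).card + M' : ℕ) : ℝ) = M := by rw [hnz]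
        push_cast at h1
        linarith
      have hMpos : (0 : ℝ) < M := by exact_mod_cast (by omega : 0 < M)
      have hlt : M' < M := by
        have : (M' : ℝ) < M := by linarith
        exact_mod_cast this
      let σ : Fin M' ≃ Z := (Z.equivFin).symm
      obtain ⟨δ', hδ', hsum'⟩ := ih M' hlt (hlt.le.trans hMm) (fun i k => a (σ i) k)
        (fun i k => ha _ _)
      refine ⟨fun i => if h : i ∈ Z then δ' (σ.symm ⟨i, h⟩) else δ i, ?_, ?_⟩
      · intro i
        by_cases h : i ∈ Z
        · simp only [h, dif_pos]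
          exact hδ' _
        · simp only [h, dif_neg, not_false_eq_true]
          have h2 : δ i ≠ 0 := fun h3 => h (Finset.mem_filter.2 ⟨Finset.mem_univ _, h3⟩)
          rcases hδ i with h3 | h3 | h3
          · exact absurd h3 h2
          · exact Or.inl h3
          · exact Or.inr h3
      · intro k
        have key : ∑ i, (if h : i ∈ Z then δ' (σ.symm ⟨i, h⟩) else δ i) * a i k =
            ∑ i, δ i * a i k + ∑ i, δ' i * a (σ i) k := by
          have h1 : ∑ i, δ' i * a (σ i) k = ∑ i : Z, δ' (σ.symm i) * a i k := by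
            rw [← Equiv.sum_comp σ.symm]
            simp
          have h2 : ∑ i : Z, δ' (σ.symm i) * a i k =
              ∑ i, (if h : i ∈ Z then δ' (σ.symm ⟨i, h⟩) * a i k else 0) := by
            rw [← Finset.sum_subset (Finset.subset_univ Z)]
            · rw [← Finset.sum_coe_sort Z]
              refine Finset.sum_congr rfl fun i _ => ?_
              rw [dif_pos i.2]
            · intro i _ hi
              rw [dif_neg hi]
          rw [h1, h2, ← Finset.sum_add_distrib]
          refine Finset.sum_congr rfl fun i _ => ?_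
          by_cases h : i ∈ Z
          · rw [dif_pos h, dif_pos h]
            have h3 : δ i = 0 := (Finset.mem_filter.1 h).2
            rw [h3]
            ring
          · rw [dif_neg h, dif_neg h]
            ring
        rw [key]
        have h3 := hsum k
        have h4 := hsum' k
        have h5 := abs_add_le (∑ i, δ i * a i k) (∑ i, δ' i * a (σ i) k)
        have h6 : √(√((m : ℝ) * M')) ≤ 0.9741 * √(√((m : ℝ) * M)) := by
          have e1 : (0 : ℝ) ≤ m := Nat.cast_nonneg _
          have e2 : (m : ℝ) * M' ≤ (0.9741 ^ 4) * ((m : ℝ) * M) := by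
            have e3 : (0.9 : ℝ) ≤ 0.9741 ^ 4 := by norm_num
            have e4 : (m : ℝ) * M' ≤ m * (0.9 * M) := mul_le_mul_of_nonneg_left hM'lt e1
            have e5 : (0 : ℝ) ≤ (m : ℝ) * M := by positivity
            nlinarith
          calc √(√((m : ℝ) * M')) ≤ √(√((0.9741 ^ 4) * ((m : ℝ) * M))) :=
                Real.sqrt_le_sqrt (Real.sqrt_le_sqrt e2)
            _ = 0.9741 * √(√((m : ℝ) * M)) := by
                rw [Real.sqrt_mul (by norm_num), show (0.9741 : ℝ) ^ 4 = (0.9741 ^ 2) ^ 2 by ring,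
                  Real.sqrt_sq (by norm_num), Real.sqrt_mul (by norm_num),
                  Real.sqrt_sq (by norm_num)]
        have h7 : 0 ≤ √(√((m : ℝ) * M)) := Real.sqrt_nonneg _
        have h8 : 1950 * √(√((m : ℝ) * M')) ≤ 1950 * (0.9741 * √(√((m : ℝ) * M))) := by
          linarith
        linarith

theorem rd_spencer (E : Type) [Fintype E] [DecidableEq E] (hE : 1 ≤ Fintype.card E) :
    Rd E (1950 * √(Fintype.card E)) := by
  classical
  intro s hs θ h0 h1
  set N := Fintype.card E with hN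
  let τ : E ≃ Fin N := Fintype.equivFin E
  -- the vectors
  let A : s → (E → ℝ) := fun C e => if e ∈ (C : Finset E) then 1 else 0
  have hsig : ∀ F : Finset s, F.card ≤ N → ∃ ε : s → ℝ, (∀ j, ε j = 1 ∨ ε j = -1) ∧
      ‖∑ j ∈ F, ε j • A j‖ ≤ 1950 * √N := by
    intro F hF
    let σ : Fin F.card ≃ F := F.equivFin.symm
    obtain ⟨δ, hδ, hsum⟩ := signs N hE F.card hF (fun i k => A (σ i) (τ.symm k)) (by
      intro i k
      simp only [A]
      split_ifs <;> simp)
    refine ⟨fun j => if h : j ∈ F then δ (σ.symm ⟨j, h⟩) else 1, ?_, ?_⟩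
    · intro j
      by_cases h : j ∈ F
      · simp only [h, dif_pos]; exact hδ _
      · simp [h]
    · rw [pi_norm_le_iff_of_nonneg (by positivity)]
      intro e
      have e1 : (∑ j ∈ F, (if h : j ∈ F then δ (σ.symm ⟨j, h⟩) else 1) • A j) e =
          ∑ i, δ i * A (σ i) (τ.symm (τ e)) := by
        rw [Finset.sum_apply, Equiv.symm_apply_apply]
        rw [← Finset.sum_coe_sort F, ← Equiv.sum_comp σ]
        refine Finset.sum_congr rfl fun i _ => ?_
        rw [dif_pos (σ i).2]
        simp
      rw [e1, Real.norm_eq_abs]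
      refine (hsum (τ e)).trans ?_
      have e2 : √(√((N : ℝ) * F.card)) ≤ √N := by
        apply Real.sqrt_le_sqrt
        have e3 : (N : ℝ) * F.card ≤ (N : ℝ) ^ 2 := by
          rw [sq]
          exact mul_le_mul_of_nonneg_left (by exact_mod_cast hF) (Nat.cast_nonneg _)
        calc √((N : ℝ) * F.card) ≤ √((N : ℝ) ^ 2) := Real.sqrt_le_sqrt e3
          _ = N := Real.sqrt_sq (Nat.cast_nonneg _)
      linarith
  obtain ⟨ε, hε, hεn⟩ := Pool.Agent.Q98.SPN.lin_disc A (1950 * √N) N hsig
    (Or.inl (by rw [Fintype.card_coe]; exact hs)) (fun j => 2 * θ j - 1) (by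
      intro j
      have := h0 j
      have := h1 j
      rw [abs_le]
      constructor <;> linarith)
  refine ⟨fun C => if h : C ∈ s then (if ε ⟨C, h⟩ = 1 then 1 else 0) else 0, ?_, ?_⟩
  · intro C
    dsimp only
    split_ifs <;> simp
  · intro e
    have h2 : |(∑ j, (ε j - (2 * θ j - 1)) • A j) e| ≤ 2 * (1950 * √N) := by
      rw [← Real.norm_eq_abs]
      exact (norm_le_pi_norm _ e).trans hεn
    have h3 : (∑ j, (ε j - (2 * θ j - 1)) • A j) e = 2 * ∑ C ∈ s, (if e ∈ C then
        (((if h : C ∈ s then (if ε ⟨C, h⟩ = 1 then 1 else 0) else 0 : ℕ) : ℝ) - θ C) else 0) := by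
      rw [Finset.sum_apply, Finset.mul_sum, ← Finset.sum_coe_sort s]
      refine Finset.sum_congr rfl fun j _ => ?_
      simp only [Pi.smul_apply, smul_eq_mul, A]
      rw [dif_pos j.2]
      by_cases he : e ∈ (j : Finset E)
      · rw [if_pos he, if_pos he]
        rcases hε j with h | h
        · rw [if_pos h, h]; push_cast; ring
        · rw [if_neg (by rw [h]; norm_num), h]; push_cast; ring
      · rw [if_neg he, if_neg he]; ring
    rw [h3, abs_mul, abs_of_pos (by norm_num : (0 : ℝ) < 2)] at h2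
    linarith

end Pool.Agent.Helper93.WF
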