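import Pool.Agent.Helper93.WF.Disc
import Pool.Agent.N411.CV.Cover
import Pool.Agent.W831.ECC.Lat
import Pool.Agent.Y36.PG.Car

/-!
Circuit covers of weightings deep in the cone of the circuits, with a depth which does not depend on
the weights.
-/

set_option autoImplicit false
set_option linter.unusedSectionVars false

namespace Pool.Agent.Helper93.WF

open Finset
open Pool.Agent.H126R2.CDC (MGraph)
open Pool.Agent.H126R2.NC (TC InCone InLat InIntCone cone_lat_of_intCone circuit_tc)
open Pool.Agent.W831.ECC (RCone intCone_comb bridgeless_of_lat)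
open Pool.Agent.TH399.CC (odd_part)

variable {V E : Type} [Fintype V] [DecidableEq V] [Fintype E] [DecidableEq E]

lemma carath (G : MGraph V E) (x : E → ℝ) (h : RCone G x) :
    ∃ T : Finset (Finset E), T.card ≤ Fintype.card E ∧ (∀ C ∈ T, G.IsCircuit C) ∧
      ∃ c : Finset E → ℝ, (∀ C ∈ T, 0 ≤ c C) ∧
        ∀ e, x e = ∑ C ∈ T, if e ∈ C then c C else 0 := by
  classical
  obtain ⟨w, hw0, hw1, hw2⟩ := h
  obtain ⟨T, hT, hcard, c, hc, hsum⟩ := Pool.Agent.Y36.PG.cone_caratheodory (V := E → ℝ)
    (fun C : Finset E => fun e => if e ∈ C then (1 : ℝ) else 0)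
    (univ.filter fun C => G.IsCircuit C) w (fun C _ => hw0 C)
  refine ⟨T, ?_, fun C hC => (Finset.mem_filter.1 (hT hC)).2, c, hc, fun e => ?_⟩
  · rwa [Module.finrank_fintype_fun_eq_card] at hcard
  · have h1 := congrFun hsum e
    simp only [Finset.sum_apply, Pi.smul_apply, smul_eq_mul] at h1
    have h2 : ∑ C ∈ T, (if e ∈ C then c C else 0) = ∑ C ∈ T, c C * (if e ∈ C then 1 else 0) :=
      Finset.sum_congr rfl fun C _ => by split_ifs <;> simp
    rw [h2, h1, hw2 e]
    symm
    apply Finset.sum_subset (Finset.subset_univ _)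
    intro C _ hC
    have : ¬ G.IsCircuit C := fun h => hC (Finset.mem_filter.2 ⟨Finset.mem_univ _, h⟩)
    rw [hw1 C this, zero_mul]

lemma cover_lat (G : MGraph V E) (r : E → ℕ) (hlat : InLat G r) (v : E × Bool → V)
    (hv : ∀ e, G.ends e = s(v (e, false), v (e, true)))
    (htc : ∀ e f, TC (fun e => v (e, false)) (fun e => v (e, true)) e f → r e = r f)
    (hr : ∀ e f, 7 * r e + 91 ≤ 9 * r f) : InIntCone G r := by
  have hpos : ∀ e, 0 < r e := fun e => by
    have := hr e e
    omega
  have hbr := bridgeless_of_lat G r hlat hpos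
  have h3 := Pool.Agent.N411.CV.cover_even G hbr v hv (fun e => r e / 2)
    (fun e f hef => by
      show r e / 2 = r f / 2
      rw [htc e f hef])
    (fun e f => by
      have := hr e f
      show 7 * (r e / 2) + 41 ≤ 9 * (r f / 2)
      omega)
  exact Pool.Agent.TH399.CC.intCone_add G h3 (odd_part G r hlat)
    (fun e => (Nat.div_add_mod (r e) 2).symm)

/-- the main step -/
lemma step (G : MGraph V E) (p : E → ℕ) (hlat : InLat G p) (L D : ℝ)
    (hLD : 8 * D + 46 ≤ L) (hc : RCone G (fun e => (p e : ℝ) - L))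
    (T : Finset (Finset E)) (hT : ∀ C ∈ T, G.IsCircuit C) (c : Finset E → ℝ)
    (hc0 : ∀ C ∈ T, 0 ≤ c C) (hx : ∀ e, (p e : ℝ) - L = ∑ C ∈ T, if e ∈ C then c C else 0)
    (ε : Finset E → ℕ)
    (hD : ∀ e, |∑ C ∈ T, if e ∈ C then ((ε C : ℝ) - Int.fract (c C)) else 0| ≤ D) :
    InIntCone G p := by
  classical
  by_cases hE : IsEmpty E
  · exact ⟨0, by simp, fun e => (hE.false e).elim⟩
  rw [not_isEmpty_iff] at hE
  obtain ⟨e0⟩ := hE
  obtain ⟨v, hv⟩ := G.exists_halves
  have hD0 : 0 ≤ D := (abs_nonneg _).trans (hD e0)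
  set n : Finset E → ℕ := fun C => ⌊c C⌋₊ + ε C with hn
  set S : E → ℕ := fun e => ∑ C ∈ T, n C * (if e ∈ C then 1 else 0) with hS
  have hSreal : ∀ e, (S e : ℝ) = (p e : ℝ) - L +
      ∑ C ∈ T, (if e ∈ C then ((ε C : ℝ) - Int.fract (c C)) else 0) := by
    intro e
    rw [hx e, ← Finset.sum_add_distrib]
    simp only [hS, Nat.cast_sum]
    refine Finset.sum_congr rfl fun C hC => ?_
    by_cases he : e ∈ C
    · simp only [he, if_true, hn]
      push_cast
      have h3 : ((⌊c C⌋₊ : ℕ) : ℝ) = (⌊c C⌋ : ℝ) :=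
        natCast_floor_eq_intCast_floor (hc0 C hC)
      rw [h3]
      have h4 := Int.floor_add_fract (c C)
      linarith
    · simp [he]
  have hle : ∀ e, S e ≤ p e := by
    intro e
    have h1 := hSreal e
    have h2 := abs_le.1 (hD e)
    have h3 : (S e : ℝ) ≤ p e := by linarith [h2.2]
    exact_mod_cast h3
  set r : E → ℕ := fun e => p e - S e with hr
  have hrreal : ∀ e, (r e : ℝ) = L -
      ∑ C ∈ T, (if e ∈ C then ((ε C : ℝ) - Int.fract (c C)) else 0) := by
    intro e
    simp only [hr]
    rw [Nat.cast_sub (hle e), hSreal e]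
    ring
  have hSint : InIntCone G S := intCone_comb G T hT n
  have hrlat : InLat G r := by
    have h1 := (cone_lat_of_intCone G S hSint).2
    unfold InLat at h1 hlat ⊢
    have h2 := AddSubgroup.sub_mem _ hlat h1
    have h3 : ((fun e => (p e : ℤ)) - fun e => (S e : ℤ)) = fun e => (r e : ℤ) := by
      ext e
      simp only [Pi.sub_apply, hr]
      rw [Nat.cast_sub (hle e)]
    rwa [h3] at h2
  have hrtc : ∀ e f, TC (fun e => v (e, false)) (fun e => v (e, true)) e f → r e = r f := by
    intro e f hef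
    have h1 : p e = p f := by
      have := hc.tc v hv hef
      have h2 : (p e : ℝ) = p f := by linarith
      exact_mod_cast h2
    have h2 : S e = S f := by
      simp only [hS]
      refine Finset.sum_congr rfl fun C hC => ?_
      have h3 := circuit_tc G v hv (hT C hC) hef
      by_cases he : e ∈ C
      · rw [if_pos he, if_pos (h3.1 he)]
      · rw [if_neg he, if_neg (fun h => he (h3.2 h))]
    simp only [hr, h1, h2]
  have hres : InIntCone G r := by
    refine cover_lat G r hrlat v hv hrtc ?_
    intro e f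
    have h1 := abs_le.1 (hD e)
    have h2 := abs_le.1 (hD f)
    have h3 : (7 : ℝ) * r e + 91 ≤ 9 * r f := by
      rw [hrreal e, hrreal f]
      linarith [h1.1, h2.2]
    exact_mod_cast h3
  exact Pool.Agent.TH399.CC.intCone_add G hres hSint (fun e => by
    have := hle e
    show p e = p e - S e + S e
    omega)

/-- depth `16100 sqrt N` -/
theorem cover_spencer (G : MGraph V E) (p : E → ℕ) (hlat : InLat G p) (L : ℝ)
    (hL : 16100 * √(Fintype.card E) ≤ L) (hc : RCone G (fun e => (p e : ℝ) - L)) :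
    InIntCone G p := by
  by_cases hE : IsEmpty E
  · exact ⟨0, by simp, fun e => (hE.false e).elim⟩
  rw [not_isEmpty_iff] at hE
  have hcard : 1 ≤ Fintype.card E := Fintype.card_pos
  have hc1 : (1 : ℝ) ≤ √(Fintype.card E) := by
    rw [Real.one_le_sqrt]
    exact_mod_cast hcard
  obtain ⟨T, hTc, hT, c, hc0, hx⟩ := carath G _ hc
  obtain ⟨ε, -, hD⟩ := rd_spencer E hcard T hTc (fun C => Int.fract (c C))
    (fun C => Int.fract_nonneg _) (fun C => (Int.fract_lt_one _).le)
  exact step G p hlat L _ (by linarith) hc T hT c hc0 hx ε hD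

/-- depth `16 sqrt (min M N log (2N)) + 46` -/
theorem cover_log (G : MGraph V E) (p : E → ℕ) (hlat : InLat G p) (L : ℝ) (M : ℕ)
    (hM : ∀ e, p e ≤ M)
    (hL : 16 * √((min M (Fintype.card E) : ℕ) * Real.log (2 * Fintype.card E)) + 46 ≤ L)
    (hc : RCone G (fun e => (p e : ℝ) - L)) :
    InIntCone G p := by
  by_cases hE : IsEmpty E
  · exact ⟨0, by simp, fun e => (hE.false e).elim⟩
  rw [not_isEmpty_iff] at hE
  obtain ⟨e0⟩ := hE
  have hcard : 1 ≤ Fintype.card E := Fintype.card_pos_iff.2 ⟨e0⟩
  have hcR : (1 : ℝ) ≤ Fintype.card E := by exact_mod_cast hcard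
  set ℓ := Real.log (2 * Fintype.card E) with hℓ
  have hℓ0 : 0 < ℓ := Real.log_pos (by linarith)
  set Q : ℝ := ((min M (Fintype.card E) : ℕ) : ℝ) with hQ
  have hQ' : Q = min (M : ℝ) (Fintype.card E) := by rw [hQ]; push_cast; rfl
  have hLM : L ≤ M := by
    have h1 := hc.nonneg e0
    have h2 : (p e0 : ℝ) ≤ M := by exact_mod_cast hM e0
    linarith
  have hℓQ : ℓ ≤ Q := by
    rw [hQ']
    refine le_min ?_ (log_le_self' _ hcard)
    by_contra hcon
    push Not at hcon
    have h0 : (0 : ℝ) ≤ √(Q * ℓ) := Real.sqrt_nonneg _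
    have hMN : (M : ℝ) ≤ Fintype.card E := hcon.le.trans (log_le_self' _ hcard)
    have hQM : Q = M := by rw [hQ', min_eq_left hMN]
    have hM0 : (0 : ℝ) ≤ M := Nat.cast_nonneg _
    have h1 : (M : ℝ) ≤ √(Q * ℓ) := by
      rw [hQM]
      apply Real.le_sqrt_of_sq_le
      nlinarith
    linarith
  obtain ⟨T, hTc, hT, c, hc0, hx⟩ := carath G _ hc
  obtain ⟨ε, -, hD⟩ := rd_log E hcard Q hℓQ T (fun C => Int.fract (c C))
    (fun C => Int.fract_nonneg _) (fun C => (Int.fract_lt_one _).le) (by
      intro e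
      rw [hQ']
      refine le_min ?_ ?_
      · calc ∑ C ∈ T, (if e ∈ C then Int.fract (c C) else 0)
            ≤ ∑ C ∈ T, (if e ∈ C then c C else 0) := by
              refine Finset.sum_le_sum fun C hC => ?_
              split_ifs
              · have h1 := Int.floor_add_fract (c C)
                have h2 : (0 : ℝ) ≤ (⌊c C⌋ : ℝ) := by exact_mod_cast Int.floor_nonneg.2 (hc0 C hC)
                linarith
              · exact le_rfl
          _ = (p e : ℝ) - L := (hx e).symm
          _ ≤ M := by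
              have h2 : (p e : ℝ) ≤ M := by exact_mod_cast hM e
              have h3 : (0 : ℝ) ≤ 16 * √(Q * ℓ) := by positivity
              linarith
      · calc ∑ C ∈ T, (if e ∈ C then Int.fract (c C) else 0)
            ≤ ∑ _C ∈ T, (1 : ℝ) := by
              refine Finset.sum_le_sum fun C hC => ?_
              split_ifs
              · exact (Int.fract_lt_one _).le
              · exact zero_le_one
          _ = T.card := by simp
          _ ≤ Fintype.card E := by exact_mod_cast hTc)
  refine step G p hlat L _ ?_ hc T hT c hc0 hx ε hD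
  have h4 : 8 * (2 * √(Q * ℓ)) + 46 = 16 * √(Q * ℓ) + 46 := by ring
  rw [h4]
  exact hL

/-- reduction to weights at most `2N - 2` -/
theorem reduce (G : MGraph V E)
    (h : ∀ q : E → ℕ, (∀ e, Even (q e)) → (∀ e, q e + 2 ≤ 2 * Fintype.card E) → InCone G q →
      InIntCone G q) (p : E → ℕ) (hev : ∀ e, Even (p e)) (hp : InCone G p) : InIntCone G p := by
  classical
  by_cases hE : IsEmpty E
  · exact ⟨0, by simp, fun e => (hE.false e).elim⟩
  rw [not_isEmpty_iff] at hE
  have hcard : 1 ≤ Fintype.card E := Fintype.card_pos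
  choose k hk using hev
  have hk2 : ∀ e, p e = 2 * k e := fun e => by rw [hk e]; ring
  obtain ⟨w, hw0, hw1, hw2⟩ := hp
  have hc : RCone G (fun e => (k e : ℝ)) := by
    refine ⟨fun C => w C / 2, fun C => div_nonneg (hw0 C) (by norm_num),
      fun C hC => by show w C / 2 = 0; rw [hw1 C hC, zero_div], fun e => ?_⟩
    have h1 : (p e : ℝ) = 2 * k e := by rw [hk2 e]; push_cast; ring
    have h2 := hw2 e
    have h3 : ∑ C : Finset E, w C / 2 * (if e ∈ C then (1 : ℝ) else 0) =
        (∑ C : Finset E, w C * (if e ∈ C then (1 : ℝ) else 0)) / 2 := by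
      rw [Finset.sum_div]
      exact Finset.sum_congr rfl fun C _ => by ring
    rw [h3, ← h2, h1]
    ring
  obtain ⟨T, hTc, hT, c, hc0, hx⟩ := carath G _ hc
  set S : E → ℕ := fun e => ∑ C ∈ T, ⌊c C⌋₊ * (if e ∈ C then 1 else 0) with hS
  have hfl : ∀ C ∈ T, ((⌊c C⌋₊ : ℕ) : ℝ) = c C - Int.fract (c C) := by
    intro C hC
    have h3 : ((⌊c C⌋₊ : ℕ) : ℝ) = (⌊c C⌋ : ℝ) := natCast_floor_eq_intCast_floor (hc0 C hC)
    have h4 := Int.floor_add_fract (c C)
    linarith
  have hSreal : ∀ e, (k e : ℝ) = S e + ∑ C ∈ T, (if e ∈ C then Int.fract (c C) else 0) := by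
    intro e
    have h1 := hx e
    rw [h1]
    simp only [hS, Nat.cast_sum]
    rw [← Finset.sum_add_distrib]
    refine Finset.sum_congr rfl fun C hC => ?_
    by_cases he : e ∈ C
    · simp only [he, if_true]
      push_cast
      rw [hfl C hC]
      ring
    · simp [he]
  have hfr0 : ∀ e, 0 ≤ ∑ C ∈ T, (if e ∈ C then Int.fract (c C) else 0) := fun e =>
    Finset.sum_nonneg fun C _ => by
      split_ifs
      · exact Int.fract_nonneg _
      · exact le_rfl
  have hfr1 : ∀ e, ∑ C ∈ T, (if e ∈ C then Int.fract (c C) else 0) < Fintype.card E := by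
    intro e
    rcases T.eq_empty_or_nonempty with h0 | h0
    · rw [h0, Finset.sum_empty]
      exact_mod_cast hcard
    · calc ∑ C ∈ T, (if e ∈ C then Int.fract (c C) else 0) < ∑ _C ∈ T, (1 : ℝ) := by
            refine Finset.sum_lt_sum_of_nonempty h0 fun C _ => ?_
            split_ifs
            · exact Int.fract_lt_one _
            · exact one_pos
        _ = T.card := by simp
        _ ≤ Fintype.card E := by exact_mod_cast hTc
  have hle : ∀ e, S e ≤ k e := by
    intro e
    have h1 := hSreal e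
    have h2 := hfr0 e
    have h3 : (S e : ℝ) ≤ k e := by linarith
    exact_mod_cast h3
  have hlt : ∀ e, k e < S e + Fintype.card E := by
    intro e
    have h1 := hSreal e
    have h2 := hfr1 e
    have h3 : (k e : ℝ) < S e + Fintype.card E := by linarith
    exact_mod_cast h3
  have hres := h (fun e => 2 * (k e - S e)) (fun e => even_two_mul _) (fun e => by
      have h1 := hle e
      have h2 := hlt e
      show 2 * (k e - S e) + 2 ≤ 2 * Fintype.card E
      omega)
    (by
      refine ⟨fun C => if C ∈ T then 2 * Int.fract (c C) else 0, fun C => ?_, fun C hC => ?_,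
        fun e => ?_⟩
      · dsimp only
        split_ifs
        · have := Int.fract_nonneg (c C); linarith
        · exact le_rfl
      · dsimp only
        rw [if_neg (fun h => hC (hT C h))]
      · have h1 := hSreal e
        have h2 : ((2 * (k e - S e) : ℕ) : ℝ) = 2 * ((k e : ℝ) - S e) := by
          rw [Nat.cast_mul, Nat.cast_sub (hle e)]
          push_cast
          ring
        rw [h2, h1]
        have h3 : ∑ C : Finset E, (if C ∈ T then 2 * Int.fract (c C) else 0) *
            (if e ∈ C then (1 : ℝ) else 0) =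
            ∑ C ∈ T, (if C ∈ T then 2 * Int.fract (c C) else 0) *
              (if e ∈ C then (1 : ℝ) else 0) := by
          symm
          apply Finset.sum_subset (Finset.subset_univ _)
          intro C _ hC
          rw [if_neg hC, zero_mul]
        rw [h3, add_sub_cancel_left, Finset.mul_sum]
        refine Finset.sum_congr rfl fun C hC => ?_
        rw [if_pos hC]
        split_ifs <;> ring)
  have hSint : InIntCone G (fun e => ∑ C ∈ T, (2 * ⌊c C⌋₊) * (if e ∈ C then 1 else 0)) :=
    intCone_comb G T hT (fun C => 2 * ⌊c C⌋₊)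
  refine Pool.Agent.TH399.CC.intCone_add G hres hSint (fun e => ?_)
  have h1 : ∑ C ∈ T, (2 * ⌊c C⌋₊) * (if e ∈ C then 1 else 0) = 2 * S e := by
    simp only [hS, Finset.mul_sum]
    exact Finset.sum_congr rfl fun C _ => by ring
  have h2 := hle e
  show p e = 2 * (k e - S e) + ∑ C ∈ T, (2 * ⌊c C⌋₊) * (if e ∈ C then 1 else 0)
  rw [h1, hk2 e]
  omega

end Pool.Agent.Helper93.WF
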